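import Mathlib

/-!
U/Mantel (size S). PROOF. Put `n = |s|`, `N` the number of ordered adjacent pairs, `deg u` the number of
neighbours of `u` in `s`; `N = ∑ deg u`. For an adjacent pair `u, v` the neighbourhoods are disjoint, so
`deg u + deg v ≤ n`. Sum over the ordered adjacent pairs: `2 * ∑ deg u ^ 2 ≤ n * N`. By Cauchy-Schwarz
`N ^ 2 ≤ n * ∑ deg u ^ 2`, so `2 * N ^ 2 ≤ n ^ 2 * N`, and `2 * N ≤ n ^ 2`.
-/

set_option autoImplicit false

namespace Pool.Agent.Work.MP_4b9821_co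

theorem mantel {V : Type*} (s : Finset V) (r : V → V → Prop) [DecidableRel r]
    (hs : ∀ u v, r u v → r v u)
    (ht : ∀ u ∈ s, ∀ v ∈ s, ∀ w ∈ s, r u v → r u w → r v w → False) :
    2 * ((s ×ˢ s).filter (fun p => r p.1 p.2)).card ≤ s.card ^ 2 := by
  have hN : ((s ×ˢ s).filter (fun p => r p.1 p.2)).card =
      ∑ u ∈ s, ∑ v ∈ s, if r u v then 1 else 0 := by
    rw [Finset.card_filter, Finset.sum_product]
  obtain ⟨d, hd⟩ : ∃ d : V → ℕ, ∀ u, d u = ∑ v ∈ s, if r u v then 1 else 0 := ⟨_, fun _ => rfl⟩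
  have hN2 : ((s ×ˢ s).filter (fun p => r p.1 p.2)).card = ∑ u ∈ s, d u := by
    rw [hN]
    exact Finset.sum_congr rfl fun u _ => (hd u).symm
  have h1 : ∑ u ∈ s, ∑ v ∈ s, (if r u v then d u else 0) = ∑ u ∈ s, d u ^ 2 := by
    refine Finset.sum_congr rfl fun u _ => ?_
    have : ∀ v, (if r u v then d u else 0) = d u * (if r u v then 1 else 0) := by
      intro v
      split_ifs <;> simp
    rw [Finset.sum_congr rfl fun v _ => this v, ← Finset.mul_sum, ← hd u, sq]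
  have h2 : ∑ u ∈ s, ∑ v ∈ s, (if r u v then d v else 0) = ∑ u ∈ s, d u ^ 2 := by
    rw [Finset.sum_comm, ← h1]
    refine Finset.sum_congr rfl fun u _ => Finset.sum_congr rfl fun v _ => ?_
    have : r v u ↔ r u v := ⟨hs v u, hs u v⟩
    by_cases h : r u v
    · rw [if_pos h, if_pos (this.2 h)]
    · rw [if_neg h, if_neg (fun h' => h (this.1 h'))]
  have h3 : ∀ u ∈ s, ∀ v ∈ s, r u v → d u + d v ≤ s.card := by
    intro u hu v hv huv
    rw [hd u, hd v, ← Finset.sum_add_distrib, Finset.card_eq_sum_ones]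
    refine Finset.sum_le_sum fun w hw => ?_
    by_cases h : r u w
    · by_cases h' : r v w
      · exact (ht u hu v hv w hw huv h h').elim
      · rw [if_pos h, if_neg h']
    · rw [if_neg h]
      split_ifs <;> omega
  have h4 : 2 * ∑ u ∈ s, d u ^ 2 ≤ s.card * ∑ u ∈ s, d u := by
    rw [two_mul]
    nth_rewrite 1 [← h1]
    rw [← h2, ← Finset.sum_add_distrib, Finset.mul_sum]
    refine Finset.sum_le_sum fun u hu => ?_
    rw [← Finset.sum_add_distrib, hd u, Finset.mul_sum, ← hd u]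
    refine Finset.sum_le_sum fun v hv => ?_
    by_cases h : r u v
    · rw [if_pos h, if_pos h, if_pos h, mul_one]
      exact h3 u hu v hv h
    · rw [if_neg h, if_neg h, if_neg h]
      exact Nat.zero_le _
  have h5 : (∑ u ∈ s, d u) ^ 2 ≤ s.card * ∑ u ∈ s, d u ^ 2 := sq_sum_le_card_mul_sum_sq
  rw [hN2]
  rcases Nat.eq_zero_or_pos (∑ u ∈ s, d u) with h0 | h0
  · rw [h0]
    exact Nat.zero_le _
  · have h6 : 2 * (∑ u ∈ s, d u) ^ 2 ≤ s.card ^ 2 * ∑ u ∈ s, d u := by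
      calc 2 * (∑ u ∈ s, d u) ^ 2 ≤ 2 * (s.card * ∑ u ∈ s, d u ^ 2) := Nat.mul_le_mul_left _ h5
        _ = s.card * (2 * ∑ u ∈ s, d u ^ 2) := by ring
        _ ≤ s.card * (s.card * ∑ u ∈ s, d u) := Nat.mul_le_mul_left _ h4
        _ = s.card ^ 2 * ∑ u ∈ s, d u := by ring
    refine Nat.le_of_mul_le_mul_right ?_ h0
    calc 2 * (∑ u ∈ s, d u) * (∑ u ∈ s, d u) = 2 * (∑ u ∈ s, d u) ^ 2 := by ring
      _ ≤ _ := h6

end Pool.Agent.Work.MP_4b9821_co
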