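import Pool.Agent.Work.MP_4b9821_co.Defs
import Pool.Agent.Work.MP_4b9821_co.U.Mantel

/-!
U/Deg (size M): double counting. `m = F.card`.

`sum_deg`: count pairs `(x, A)` with `x ∈ A`.
`sum_deg_sq`: `∑ deg x ^ 2` is the number of triples `(x, A, B)` with `x ∈ A ∩ B`, i.e. the sum of
`|A ∩ B|` over all ordered pairs; the diagonal gives `m * l`, and for `A ≠ B` we have `|A ∩ B| = 1` or `2`
(`Inter`), so the rest is `m * (m - 1) + two F`.
`one_le`: for each `x`, the ordered pairs `(A, B)` of distinct members with `A ∩ B = {x}` form a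
triangle-free graph on the members that contain `x` (no sunflower), so their number is at most
`deg x ^ 2 / 2` (`mantel`). Each ordered pair with `|A ∩ B| = 1` is counted once. So
`2 * (m * (m - 1) - two F) ≤ ∑ deg x ^ 2`.
`sum_sum_deg`: `∑_{A ∈ F} ∑_{x ∈ A} deg x = ∑_x deg x ^ 2`.
`deg_le`: `deg x ≤ 2 * l`: if `deg x > 0` fix `A` containing `x`. The other members containing `x` meet `A`
in `{x}` (at most `l` of them) or in two elements (at most `l - 1`); see the proof of `card_nbr_le` in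
U/Nbr (repeat the two injections here, or import U/Nbr when its proof is there).
-/

set_option autoImplicit false

namespace Pool.Agent.Work.MP_4b9821_co

variable {α : Type*} [DecidableEq α]

private lemma inter_pair {l : ℕ} {F : Finset (Finset α)} (h : Adm l 2 F) {B C : Finset α}
    (hB : B ∈ F) (hC : C ∈ F) (hne : B ≠ C) {x y : α} (hxy : x ≠ y) (hxB : x ∈ B) (hxC : x ∈ C)
    (hyB : y ∈ B) (hyC : y ∈ C) : B ∩ C = {x, y} := by
  refine (Finset.eq_of_subset_of_card_le ?_ ?_).symm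
  · intro z hz
    rw [Finset.mem_insert, Finset.mem_singleton] at hz
    rcases hz with rfl | rfl
    · exact Finset.mem_inter.mpr ⟨hxB, hxC⟩
    · exact Finset.mem_inter.mpr ⟨hyB, hyC⟩
  · rw [Finset.card_pair hxy]
    exact h.2.1 B hB C hC hne

private lemma no_three {l : ℕ} {F : Finset (Finset α)} (h : Adm l 2 F) {A B C : Finset α}
    (hA : A ∈ F) (hB : B ∈ F) (hC : C ∈ F) (hAB : A ≠ B) (hAC : A ≠ C) (hBC : B ≠ C) {x y : α}
    (hxy : x ≠ y) (hxA : x ∈ A) (hxB : x ∈ B) (hxC : x ∈ C)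
    (hyA : y ∈ A) (hyB : y ∈ B) (hyC : y ∈ C) : False := by
  refine h.2.2 A hA B hB C hC ⟨hAB, hAC, hBC, ?_, ?_⟩
  · rw [inter_pair h hA hB hAB hxy hxA hxB hyA hyB, inter_pair h hA hC hAC hxy hxA hxC hyA hyC]
  · rw [inter_pair h hA hC hAC hxy hxA hxC hyA hyC, inter_pair h hB hC hBC hxy hxB hxC hyB hyC]

private lemma card_S {l : ℕ} {F : Finset (Finset α)} (h : Adm l 2 F) {A : Finset α} (hA : A ∈ F)
    {x : α} (hx : x ∈ A) :
    (F.filter (fun B => B ≠ A ∧ A ∩ B = {x})).card ≤ l := by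
  set S := F.filter (fun B => B ≠ A ∧ A ∩ B = {x}) with hS
  rcases S.eq_empty_or_nonempty with h0 | ⟨B, hB⟩
  · rw [h0]; simp
  have hB' := hB
  rw [hS, Finset.mem_filter] at hB'
  obtain ⟨hBF, hBA, hAB⟩ := hB'
  have hxB : x ∈ B := by
    have : x ∈ A ∩ B := by rw [hAB]; exact Finset.mem_singleton_self x
    exact (Finset.mem_inter.mp this).2
  have hcard : B.card = l := h.1 B hBF
  have hle : (S.erase B).card ≤ (B.erase x).card := by
    refine Finset.card_le_card_of_forall_subsingleton (fun C y => y ∈ C) ?_ ?_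
    · intro C hC
      rw [Finset.mem_erase, hS, Finset.mem_filter] at hC
      obtain ⟨hCB, hCF, hCA, hAC⟩ := hC
      have hxC : x ∈ C := by
        have : x ∈ A ∩ C := by rw [hAC]; exact Finset.mem_singleton_self x
        exact (Finset.mem_inter.mp this).2
      by_contra hcon
      push Not at hcon
      have hBC : B ∩ C = {x} := by
        ext z
        rw [Finset.mem_inter, Finset.mem_singleton]
        constructor
        · rintro ⟨hz1, hz2⟩
          by_contra hzx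
          exact hcon z (Finset.mem_erase.mpr ⟨hzx, hz1⟩) hz2
        · rintro rfl
          exact ⟨hxB, hxC⟩
      exact h.2.2 A hA B hBF C hCF ⟨hBA.symm, hCA.symm, hCB.symm, by rw [hAB, hAC],
        by rw [hAC, hBC]⟩
    · intro y hy C hC C' hC'
      obtain ⟨hC1, hyC⟩ := hC
      obtain ⟨hC2, hyC'⟩ := hC'
      rw [Finset.mem_erase, hS, Finset.mem_filter] at hC1 hC2
      obtain ⟨hCB, hCF, hCA, hAC⟩ := hC1
      obtain ⟨hCB', hCF', hCA', hAC'⟩ := hC2
      have hxC : x ∈ C := by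
        have : x ∈ A ∩ C := by rw [hAC]; exact Finset.mem_singleton_self x
        exact (Finset.mem_inter.mp this).2
      have hxC' : x ∈ C' := by
        have : x ∈ A ∩ C' := by rw [hAC']; exact Finset.mem_singleton_self x
        exact (Finset.mem_inter.mp this).2
      rw [Finset.mem_erase] at hy
      by_contra hne
      exact no_three h hBF hCF hCF' hCB.symm hCB'.symm hne (Ne.symm hy.1) hxB hxC hxC' hy.2
        hyC hyC'
  rw [Finset.card_erase_of_mem hB, Finset.card_erase_of_mem hxB, hcard] at hle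
  have : 0 < l := by rw [← hcard]; exact Finset.card_pos.mpr ⟨x, hxB⟩
  omega

private lemma card_R {l : ℕ} {F : Finset (Finset α)} (h : Adm l 2 F) {A : Finset α} (hA : A ∈ F)
    {x : α} (hx : x ∈ A) :
    (F.filter (fun B => (B ≠ A ∧ (A ∩ B).card = 2) ∧ x ∈ B)).card ≤ l - 1 := by
  have hcard : A.card = l := h.1 A hA
  have hle : (F.filter (fun B => (B ≠ A ∧ (A ∩ B).card = 2) ∧ x ∈ B)).card ≤
      (A.erase x).card := by
    refine Finset.card_le_card_of_forall_subsingleton (fun C y => y ∈ C) ?_ ?_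
    · intro C hC
      rw [Finset.mem_filter] at hC
      obtain ⟨hCF, ⟨hCA, hAC⟩, hxC⟩ := hC
      have : 0 < ((A ∩ C).erase x).card := by
        rw [Finset.card_erase_of_mem (Finset.mem_inter.mpr ⟨hx, hxC⟩), hAC]; norm_num
      obtain ⟨y, hy⟩ := Finset.card_pos.mp this
      rw [Finset.mem_erase, Finset.mem_inter] at hy
      exact ⟨y, Finset.mem_erase.mpr ⟨hy.1, hy.2.1⟩, hy.2.2⟩
    · intro y hy C hC C' hC'
      obtain ⟨hC1, hyC⟩ := hC
      obtain ⟨hC2, hyC'⟩ := hC'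
      rw [Finset.mem_filter] at hC1 hC2
      obtain ⟨hCF, ⟨hCA, -⟩, hxC⟩ := hC1
      obtain ⟨hCF', ⟨hCA', -⟩, hxC'⟩ := hC2
      rw [Finset.mem_erase] at hy
      by_contra hne
      exact no_three h hA hCF hCF' hCA.symm hCA'.symm hne (Ne.symm hy.1) hx hxC hxC' hy.2
        hyC hyC'
  rwa [Finset.card_erase_of_mem hx, hcard] at hle

private theorem mem_gr {F : Finset (Finset α)} {A : Finset α} (hA : A ∈ F) {x : α} (hx : x ∈ A) :
    x ∈ gr F := Finset.mem_biUnion.2 ⟨A, hA, hx⟩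

private theorem card_eq_sum_gr {F : Finset (Finset α)} {A : Finset α} (hA : A ∈ F) :
    ∑ x ∈ gr F, (if x ∈ A then 1 else 0) = A.card := by
  rw [← Finset.card_filter]
  congr 1
  ext x
  rw [Finset.mem_filter]
  exact ⟨fun h => h.2, fun h => ⟨mem_gr hA h, h⟩⟩

private theorem card_inter_eq_sum_gr {F : Finset (Finset α)} {A : Finset α} (hA : A ∈ F)
    (B : Finset α) :
    ∑ x ∈ gr F, (if x ∈ A ∧ x ∈ B then 1 else 0) = (A ∩ B).card := by
  rw [← Finset.card_filter]
  congr 1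
  ext x
  rw [Finset.mem_filter, Finset.mem_inter]
  exact ⟨fun h => h.2, fun h => ⟨mem_gr hA h.1, h⟩⟩

theorem sum_deg {l : ℕ} {F : Finset (Finset α)} (h : Adm l 2 F) :
    ∑ x ∈ gr F, deg F x = F.card * l := by
  have e : ∀ x ∈ gr F, deg F x = ∑ A ∈ F, if x ∈ A then 1 else 0 := by
    intro x _
    rw [deg, Finset.card_filter]
  rw [Finset.sum_congr rfl e, Finset.sum_comm, Finset.sum_congr rfl fun A hA => card_eq_sum_gr hA,
    Finset.sum_congr rfl fun A hA => h.1 A hA, Finset.sum_const, smul_eq_mul]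

private theorem deg_sq (F : Finset (Finset α)) (x : α) :
    deg F x ^ 2 = ∑ p ∈ F ×ˢ F, if x ∈ p.1 ∧ x ∈ p.2 then 1 else 0 := by
  rw [deg, sq, ← Finset.card_product, ← Finset.card_filter]
  congr 1
  ext p
  simp only [Finset.mem_filter, Finset.mem_product]
  tauto

private theorem sum_sq (F : Finset (Finset α)) :
    ∑ x ∈ gr F, deg F x ^ 2 = ∑ p ∈ F ×ˢ F, (p.1 ∩ p.2).card := by
  rw [Finset.sum_congr rfl fun x _ => deg_sq F x, Finset.sum_comm]
  refine Finset.sum_congr rfl fun p hp => ?_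
  rw [Finset.mem_product] at hp
  exact card_inter_eq_sum_gr hp.1 p.2

private theorem sum_diag (F : Finset (Finset α)) (c : ℕ) :
    ∑ p ∈ F ×ˢ F, (if p.1 = p.2 then c else 0) = F.card * c := by
  rw [Finset.sum_product]
  have : ∀ A ∈ F, ∑ B ∈ F, (if A = B then c else 0) = c := by
    intro A hA
    rw [Finset.sum_ite_eq, if_pos hA]
  rw [Finset.sum_congr rfl this, Finset.sum_const, smul_eq_mul]

private theorem sum_two (F : Finset (Finset α)) :
    ∑ p ∈ F ×ˢ F, (if p.1 ≠ p.2 ∧ (p.1 ∩ p.2).card = 2 then 1 else 0) = two F := by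
  rw [two, Finset.card_filter]

omit [DecidableEq α] in
private theorem sum_one (F : Finset (Finset α)) : ∑ _p ∈ F ×ˢ F, 1 = F.card ^ 2 := by
  rw [Finset.sum_const, smul_eq_mul, mul_one, Finset.card_product, sq]

private theorem card_cases {l : ℕ} {F : Finset (Finset α)} (h : Adm l 2 F) (hI : Inter F)
    {A B : Finset α} (hA : A ∈ F) (hB : B ∈ F) (hAB : A ≠ B) :
    (A ∩ B).card = 1 ∨ (A ∩ B).card = 2 := by
  have h1 := h.2.1 A hA B hB hAB
  have h2 : 0 < (A ∩ B).card := Finset.card_pos.mpr (hI A hA B hB hAB)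
  omega

theorem sum_deg_sq {l : ℕ} {F : Finset (Finset α)} (h : Adm l 2 F) (hI : Inter F) :
    ∑ x ∈ gr F, deg F x ^ 2 + F.card = F.card * l + F.card ^ 2 + two F := by
  have e1 := sum_diag F 1
  rw [mul_one] at e1
  rw [sum_sq, ← e1, e1, ← sum_diag F l, ← sum_one, ← sum_two]
  nth_rewrite 1 [← e1]
  rw [← Finset.sum_add_distrib, ← Finset.sum_add_distrib, ← Finset.sum_add_distrib]
  refine Finset.sum_congr rfl fun p hp => ?_
  rw [Finset.mem_product] at hp
  by_cases hpp : p.1 = p.2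
  · rw [if_pos hpp, if_pos hpp, if_neg (fun h => h.1 hpp), ← hpp, Finset.inter_self,
      h.1 _ hp.1]
  · rw [if_neg hpp, if_neg hpp]
    rcases card_cases h hI hp.1 hp.2 hpp with h1 | h1
    · rw [h1, if_neg (fun h => by simp at h)]
    · rw [h1, if_pos ⟨hpp, rfl⟩]

private theorem one_card {l : ℕ} {F : Finset (Finset α)} (h : Adm l 2 F) (hI : Inter F) :
    ((F ×ˢ F).filter (fun p => p.1 ≠ p.2 ∧ (p.1 ∩ p.2).card = 1)).card + two F + F.card
      = F.card ^ 2 := by
  have e1 := sum_diag F 1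
  rw [mul_one] at e1
  rw [Finset.card_filter, ← sum_two, ← sum_one]
  nth_rewrite 1 [← e1]
  rw [← Finset.sum_add_distrib, ← Finset.sum_add_distrib]
  refine Finset.sum_congr rfl fun p hp => ?_
  rw [Finset.mem_product] at hp
  by_cases hpp : p.1 = p.2
  · rw [if_pos hpp, if_neg (fun h => h.1 hpp), if_neg (fun h => h.1 hpp)]
  · rw [if_neg hpp]
    rcases card_cases h hI hp.1 hp.2 hpp with h1 | h1
    · rw [h1, if_pos ⟨hpp, rfl⟩, if_neg (fun h => by simp at h)]
    · rw [h1, if_neg (fun h => by simp at h), if_pos ⟨hpp, rfl⟩]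

private theorem one_at {l : ℕ} {F : Finset (Finset α)} (h : Adm l 2 F) (x : α) :
    2 * ((F ×ˢ F).filter (fun p => p.1 ≠ p.2 ∧ p.1 ∩ p.2 = {x})).card ≤ deg F x ^ 2 := by
  have hm := mantel (F.filter (fun A => x ∈ A)) (fun A B => A ≠ B ∧ A ∩ B = {x})
    (fun A B hAB => ⟨hAB.1.symm, by rw [Finset.inter_comm]; exact hAB.2⟩)
    (fun A hA B hB C hC hAB hAC hBC => by
      rw [Finset.mem_filter] at hA hB hC
      exact h.2.2 A hA.1 B hB.1 C hC.1
        ⟨hAB.1, hAC.1, hBC.1, hAB.2.trans hAC.2.symm, hAC.2.trans hBC.2.symm⟩)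
  have e : (F ×ˢ F).filter (fun p => p.1 ≠ p.2 ∧ p.1 ∩ p.2 = {x}) =
      ((F.filter (fun A => x ∈ A)) ×ˢ (F.filter (fun A => x ∈ A))).filter
        (fun p => p.1 ≠ p.2 ∧ p.1 ∩ p.2 = {x}) := by
    ext p
    simp only [Finset.mem_filter, Finset.mem_product]
    constructor
    · rintro ⟨⟨h1, h2⟩, h3, h4⟩
      have hx : x ∈ p.1 ∩ p.2 := by rw [h4]; exact Finset.mem_singleton_self x
      rw [Finset.mem_inter] at hx
      exact ⟨⟨⟨h1, hx.1⟩, ⟨h2, hx.2⟩⟩, h3, h4⟩
    · rintro ⟨⟨⟨h1, _⟩, ⟨h2, _⟩⟩, h3, h4⟩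
      exact ⟨⟨h1, h2⟩, h3, h4⟩
  rw [e]
  exact hm

theorem one_le {l : ℕ} {F : Finset (Finset α)} (h : Adm l 2 F) (hI : Inter F) :
    2 * F.card ^ 2 ≤ 2 * F.card + 2 * two F + ∑ x ∈ gr F, deg F x ^ 2 := by
  have h1 := one_card h hI
  have h2 : ((F ×ˢ F).filter (fun p => p.1 ≠ p.2 ∧ (p.1 ∩ p.2).card = 1)).card ≤
      ∑ x ∈ gr F, ((F ×ˢ F).filter (fun p => p.1 ≠ p.2 ∧ p.1 ∩ p.2 = {x})).card := by
    refine le_trans (Finset.card_le_card ?_) Finset.card_biUnion_le
    intro p hp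
    rw [Finset.mem_filter, Finset.mem_product] at hp
    obtain ⟨x, hx⟩ := Finset.card_eq_one.1 hp.2.2
    rw [Finset.mem_biUnion]
    refine ⟨x, mem_gr hp.1.1 ?_, ?_⟩
    · have : x ∈ p.1 ∩ p.2 := by rw [hx]; exact Finset.mem_singleton_self x
      exact (Finset.mem_inter.1 this).1
    · rw [Finset.mem_filter, Finset.mem_product]
      exact ⟨hp.1, hp.2.1, hx⟩
  have h3 : 2 * ∑ x ∈ gr F, ((F ×ˢ F).filter (fun p => p.1 ≠ p.2 ∧ p.1 ∩ p.2 = {x})).card ≤
      ∑ x ∈ gr F, deg F x ^ 2 := by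
    rw [Finset.mul_sum]
    exact Finset.sum_le_sum fun x _ => one_at h x
  omega

theorem sum_sum_deg {F : Finset (Finset α)} :
    ∑ A ∈ F, ∑ x ∈ A, deg F x = ∑ x ∈ gr F, deg F x ^ 2 := by
  have h1 : ∀ A ∈ F, ∑ x ∈ A, deg F x = ∑ x ∈ gr F, if x ∈ A then deg F x else 0 := by
    intro A hA
    rw [← Finset.sum_filter]
    refine Finset.sum_congr ?_ fun _ _ => rfl
    ext x
    rw [Finset.mem_filter]
    exact ⟨fun h => ⟨mem_gr hA h, h⟩, fun h => h.2⟩
  rw [Finset.sum_congr rfl h1, Finset.sum_comm]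
  refine Finset.sum_congr rfl fun x _ => ?_
  rw [← Finset.sum_filter, Finset.sum_const, smul_eq_mul, sq]
  rfl

theorem deg_le {l : ℕ} {F : Finset (Finset α)} (h : Adm l 2 F) (x : α) : deg F x ≤ 2 * l := by
  rw [deg]
  rcases (F.filter (fun A => x ∈ A)).eq_empty_or_nonempty with h0 | ⟨A, hA⟩
  · rw [h0]; simp
  rw [Finset.mem_filter] at hA
  obtain ⟨hAF, hxA⟩ := hA
  have hs := card_S h hAF hxA
  have hr := card_R h hAF hxA
  have hl : 0 < l := by rw [← h.1 A hAF]; exact Finset.card_pos.mpr ⟨x, hxA⟩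
  have hsub : F.filter (fun B => x ∈ B) ⊆
      insert A ((F.filter (fun B => B ≠ A ∧ A ∩ B = {x})) ∪
        (F.filter (fun B => (B ≠ A ∧ (A ∩ B).card = 2) ∧ x ∈ B))) := by
    intro B hB
    rw [Finset.mem_filter] at hB
    obtain ⟨hBF, hxB⟩ := hB
    rw [Finset.mem_insert, Finset.mem_union, Finset.mem_filter, Finset.mem_filter]
    by_cases hBA : B = A
    · exact Or.inl hBA
    right
    have hx : x ∈ A ∩ B := Finset.mem_inter.2 ⟨hxA, hxB⟩
    have h1 := h.2.1 A hAF B hBF (fun h => hBA h.symm)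
    have h2 : 0 < (A ∩ B).card := Finset.card_pos.mpr ⟨x, hx⟩
    have h3 : (A ∩ B).card = 1 ∨ (A ∩ B).card = 2 := by omega
    rcases h3 with h3 | h3
    · left
      refine ⟨hBF, hBA, ?_⟩
      obtain ⟨y, hy⟩ := Finset.card_eq_one.1 h3
      rw [hy] at hx ⊢
      rw [Finset.mem_singleton.1 hx]
    · exact Or.inr ⟨hBF, ⟨hBA, h3⟩, hxB⟩
  have hc := Finset.card_le_card hsub
  have hc2 := hc.trans (Finset.card_insert_le _ _)
  have hc3 := Finset.card_union_le (F.filter (fun B => B ≠ A ∧ A ∩ B = {x}))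
    (F.filter (fun B => (B ≠ A ∧ (A ∩ B).card = 2) ∧ x ∈ B))
  omega

end Pool.Agent.Work.MP_4b9821_co
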