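import Pool.Agent.Work.MP_4b9821_co.Defs

/-!
U/Nbr (size M). PROOF. For `x ∈ A` let `S x` be the members `B` with `A ∩ B = {x}` and `R x` the members
`B ≠ A` with `x ∈ B` and `|A ∩ B| = 2`.

`|S x| ≤ l`: two distinct `B, C ∈ S x` do not satisfy `B ∩ C = {x}` (otherwise `A, B, C` is a sunflower:
all pairwise intersections are `{x}`), so `|B ∩ C| = 2`. Fix `B ∈ S x`; send `C ∈ S x`, `C ≠ B`, to the
element `y` of `(B ∩ C) \ {x}`, an element of `B \ {x}`. It is injective: if `C, C'` have the same `y`,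
then `B, C, C'` contain `x, y`, so all pairwise intersections are `{x, y}`, a sunflower. So
`|S x| - 1 ≤ l - 1`.

`|R x| ≤ l - 1`: send `B` to the other element `y` of `A ∩ B`; it is injective: if `B, B'` have the same
`y` then `A, B, B'` is a sunflower with core `{x, y}`.

A member that meets `A` in one element is in exactly one `S x`; a member `≠ A` that meets `A` in two
elements is in exactly two `R x`. So the number of members that meet `A` is at most
`l * l + l * (l - 1) / 2`.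
-/

set_option autoImplicit false

namespace Pool.Agent.Work.MP_4b9821_co

variable {α : Type*} [DecidableEq α]

private lemma inter_pair {l : ℕ} {F : Finset (Finset α)} (h : Adm l 2 F) {B C : Finset α}
    (hB : B ∈ F) (hC : C ∈ F) (hne : B ≠ C) {x y : α} (hxy : x ≠ y) (hxB : x ∈ B) (hxC : x ∈ C)
    (hyB : y ∈ B) (hyC : y ∈ C) : B ∩ C = {x, y} := by
  refine (Finset.eq_of_subset_of_card_le ?_ ?_).symm
  · intro z hz
    rw [Finset.mem_insert, Finset.mem_singleton] at hz
    rcases hz with rfl | rfl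
    · exact Finset.mem_inter.mpr ⟨hxB, hxC⟩
    · exact Finset.mem_inter.mpr ⟨hyB, hyC⟩
  · rw [Finset.card_pair hxy]
    exact h.2.1 B hB C hC hne

private lemma no_three {l : ℕ} {F : Finset (Finset α)} (h : Adm l 2 F) {A B C : Finset α}
    (hA : A ∈ F) (hB : B ∈ F) (hC : C ∈ F) (hAB : A ≠ B) (hAC : A ≠ C) (hBC : B ≠ C) {x y : α}
    (hxy : x ≠ y) (hxA : x ∈ A) (hxB : x ∈ B) (hxC : x ∈ C)
    (hyA : y ∈ A) (hyB : y ∈ B) (hyC : y ∈ C) : False := by
  refine h.2.2 A hA B hB C hC ⟨hAB, hAC, hBC, ?_, ?_⟩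
  · rw [inter_pair h hA hB hAB hxy hxA hxB hyA hyB, inter_pair h hA hC hAC hxy hxA hxC hyA hyC]
  · rw [inter_pair h hA hC hAC hxy hxA hxC hyA hyC, inter_pair h hB hC hBC hxy hxB hxC hyB hyC]

private lemma card_S {l : ℕ} {F : Finset (Finset α)} (h : Adm l 2 F) {A : Finset α} (hA : A ∈ F)
    {x : α} (hx : x ∈ A) :
    (F.filter (fun B => B ≠ A ∧ A ∩ B = {x})).card ≤ l := by
  set S := F.filter (fun B => B ≠ A ∧ A ∩ B = {x}) with hS
  rcases S.eq_empty_or_nonempty with h0 | ⟨B, hB⟩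
  · rw [h0]; simp
  have hB' := hB
  rw [hS, Finset.mem_filter] at hB'
  obtain ⟨hBF, hBA, hAB⟩ := hB'
  have hxB : x ∈ B := by
    have : x ∈ A ∩ B := by rw [hAB]; exact Finset.mem_singleton_self x
    exact (Finset.mem_inter.mp this).2
  have hcard : B.card = l := h.1 B hBF
  have hle : (S.erase B).card ≤ (B.erase x).card := by
    refine Finset.card_le_card_of_forall_subsingleton (fun C y => y ∈ C) ?_ ?_
    · intro C hC
      rw [Finset.mem_erase, hS, Finset.mem_filter] at hC
      obtain ⟨hCB, hCF, hCA, hAC⟩ := hC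
      have hxC : x ∈ C := by
        have : x ∈ A ∩ C := by rw [hAC]; exact Finset.mem_singleton_self x
        exact (Finset.mem_inter.mp this).2
      by_contra hcon
      push Not at hcon
      have hBC : B ∩ C = {x} := by
        ext z
        rw [Finset.mem_inter, Finset.mem_singleton]
        constructor
        · rintro ⟨hz1, hz2⟩
          by_contra hzx
          exact hcon z (Finset.mem_erase.mpr ⟨hzx, hz1⟩) hz2
        · rintro rfl
          exact ⟨hxB, hxC⟩
      exact h.2.2 A hA B hBF C hCF ⟨hBA.symm, hCA.symm, hCB.symm, by rw [hAB, hAC],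
        by rw [hAC, hBC]⟩
    · intro y hy C hC C' hC'
      obtain ⟨hC1, hyC⟩ := hC
      obtain ⟨hC2, hyC'⟩ := hC'
      rw [Finset.mem_erase, hS, Finset.mem_filter] at hC1 hC2
      obtain ⟨hCB, hCF, hCA, hAC⟩ := hC1
      obtain ⟨hCB', hCF', hCA', hAC'⟩ := hC2
      have hxC : x ∈ C := by
        have : x ∈ A ∩ C := by rw [hAC]; exact Finset.mem_singleton_self x
        exact (Finset.mem_inter.mp this).2
      have hxC' : x ∈ C' := by
        have : x ∈ A ∩ C' := by rw [hAC']; exact Finset.mem_singleton_self x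
        exact (Finset.mem_inter.mp this).2
      rw [Finset.mem_erase] at hy
      by_contra hne
      exact no_three h hBF hCF hCF' hCB.symm hCB'.symm hne (Ne.symm hy.1) hxB hxC hxC' hy.2
        hyC hyC'
  rw [Finset.card_erase_of_mem hB, Finset.card_erase_of_mem hxB, hcard] at hle
  have : 0 < l := by rw [← hcard]; exact Finset.card_pos.mpr ⟨x, hxB⟩
  omega

private lemma card_R {l : ℕ} {F : Finset (Finset α)} (h : Adm l 2 F) {A : Finset α} (hA : A ∈ F)
    {x : α} (hx : x ∈ A) :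
    (F.filter (fun B => (B ≠ A ∧ (A ∩ B).card = 2) ∧ x ∈ B)).card ≤ l - 1 := by
  have hcard : A.card = l := h.1 A hA
  have hle : (F.filter (fun B => (B ≠ A ∧ (A ∩ B).card = 2) ∧ x ∈ B)).card ≤
      (A.erase x).card := by
    refine Finset.card_le_card_of_forall_subsingleton (fun C y => y ∈ C) ?_ ?_
    · intro C hC
      rw [Finset.mem_filter] at hC
      obtain ⟨hCF, ⟨hCA, hAC⟩, hxC⟩ := hC
      have : 0 < ((A ∩ C).erase x).card := by
        rw [Finset.card_erase_of_mem (Finset.mem_inter.mpr ⟨hx, hxC⟩), hAC]; norm_num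
      obtain ⟨y, hy⟩ := Finset.card_pos.mp this
      rw [Finset.mem_erase, Finset.mem_inter] at hy
      exact ⟨y, Finset.mem_erase.mpr ⟨hy.1, hy.2.1⟩, hy.2.2⟩
    · intro y hy C hC C' hC'
      obtain ⟨hC1, hyC⟩ := hC
      obtain ⟨hC2, hyC'⟩ := hC'
      rw [Finset.mem_filter] at hC1 hC2
      obtain ⟨hCF, ⟨hCA, -⟩, hxC⟩ := hC1
      obtain ⟨hCF', ⟨hCA', -⟩, hxC'⟩ := hC2
      rw [Finset.mem_erase] at hy
      by_contra hne
      exact no_three h hA hCF hCF' hCA.symm hCA'.symm hne (Ne.symm hy.1) hx hxC hxC' hy.2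
        hyC hyC'
  rwa [Finset.card_erase_of_mem hx, hcard] at hle

theorem card_nbr_le {l : ℕ} {F : Finset (Finset α)} (h : Adm l 2 F) {A : Finset α} (hA : A ∈ F) :
    2 * (F.filter (fun B => B ≠ A ∧ (A ∩ B).Nonempty)).card + l ≤ 3 * l ^ 2 := by
  have hcard : A.card = l := h.1 A hA
  set N1 := F.filter (fun B => B ≠ A ∧ (A ∩ B).card = 1) with hN1
  set N2 := F.filter (fun B => B ≠ A ∧ (A ∩ B).card = 2) with hN2
  have hsub : F.filter (fun B => B ≠ A ∧ (A ∩ B).Nonempty) ⊆ N1 ∪ N2 := by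
    intro B hB
    rw [Finset.mem_filter] at hB
    obtain ⟨hBF, hBA, hne⟩ := hB
    have h1 := h.2.1 A hA B hBF hBA.symm
    have h2 : 0 < (A ∩ B).card := Finset.card_pos.mpr hne
    rw [Finset.mem_union, hN1, hN2, Finset.mem_filter, Finset.mem_filter]
    have h3 : (A ∩ B).card = 1 ∨ (A ∩ B).card = 2 := by omega
    rcases h3 with h3 | h3
    · exact Or.inl ⟨hBF, hBA, h3⟩
    · exact Or.inr ⟨hBF, hBA, h3⟩
  have hle : (F.filter (fun B => B ≠ A ∧ (A ∩ B).Nonempty)).card ≤ N1.card + N2.card :=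
    (Finset.card_le_card hsub).trans (Finset.card_union_le _ _)
  have h1 : N1.card ≤ l * l := by
    have hs : N1 ⊆ A.biUnion fun x => F.filter (fun B => B ≠ A ∧ A ∩ B = {x}) := by
      intro B hB
      rw [hN1, Finset.mem_filter] at hB
      obtain ⟨hBF, hBA, hc⟩ := hB
      obtain ⟨x, hx⟩ := Finset.card_eq_one.mp hc
      rw [Finset.mem_biUnion]
      refine ⟨x, ?_, Finset.mem_filter.mpr ⟨hBF, hBA, hx⟩⟩
      have : x ∈ A ∩ B := by rw [hx]; exact Finset.mem_singleton_self x
      exact (Finset.mem_inter.mp this).1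
    calc N1.card ≤ (A.biUnion fun x => F.filter (fun B => B ≠ A ∧ A ∩ B = {x})).card :=
          Finset.card_le_card hs
      _ ≤ ∑ x ∈ A, (F.filter (fun B => B ≠ A ∧ A ∩ B = {x})).card := Finset.card_biUnion_le
      _ ≤ ∑ _x ∈ A, l := Finset.sum_le_sum fun x hx => card_S h hA hx
      _ = l * l := by rw [Finset.sum_const, hcard, smul_eq_mul]
  have h2 : 2 * N2.card ≤ l * (l - 1) := by
    have e1 : ∑ B ∈ N2, (A ∩ B).card = 2 * N2.card := by
      rw [Finset.sum_congr rfl (g := fun _ => 2), Finset.sum_const, smul_eq_mul, mul_comm]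
      intro B hB
      rw [hN2, Finset.mem_filter] at hB
      exact hB.2.2
    have e2 : ∑ B ∈ N2, (A ∩ B).card
        = ∑ x ∈ A, (F.filter (fun B => (B ≠ A ∧ (A ∩ B).card = 2) ∧ x ∈ B)).card := by
      have e3 : ∀ B : Finset α, (A ∩ B).card = ∑ x ∈ A, if x ∈ B then 1 else 0 := by
        intro B
        rw [← Finset.card_filter, Finset.filter_mem_eq_inter]
      rw [Finset.sum_congr rfl fun B _ => e3 B, Finset.sum_comm]
      refine Finset.sum_congr rfl fun x _ => ?_
      rw [← Finset.card_filter, hN2, Finset.filter_filter]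
    rw [← e1, e2]
    calc ∑ x ∈ A, (F.filter (fun B => (B ≠ A ∧ (A ∩ B).card = 2) ∧ x ∈ B)).card
        ≤ ∑ _x ∈ A, (l - 1) := Finset.sum_le_sum fun x hx => card_R h hA hx
      _ = l * (l - 1) := by rw [Finset.sum_const, hcard, smul_eq_mul]
  rcases Nat.eq_zero_or_pos l with hl | hl
  · subst hl
    simp only [zero_mul, Nat.le_zero] at h1 h2
    omega
  · obtain ⟨k, rfl⟩ : ∃ k, l = k + 1 := ⟨l - 1, by omega⟩
    rw [Nat.add_sub_cancel] at h2
    nlinarith

end Pool.Agent.Work.MP_4b9821_co
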