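import Pool.Agent.Work.MP_4b9821_co.U.Main
import Pool.Agent.Work.MP_4b9821_co.U.Nbr

/-!
U/Final (size S).

`inter_bound` PROOF. Let `m = F.card`. If `m ≤ 4 l + 3`: `10 m ≤ 40 l + 30 ≤ 9 l ^ 2 + 17 l + 26` since
`9 l ^ 2 - 23 l - 4 ≥ 0` for `l ≥ 3`. If `m ≥ 4 l + 4`: `σ` of `main_ineq` satisfies
`3 σ ≥ 4 (m - 1) + 2 l ≥ 6 l`, so `(σ - 2 l) ^ 2 ≤ m l (l - 1) + 2 m (σ - l - m + 1)`; expand:
`(σ - m - 2 l) ^ 2 ≤ m (l ^ 2 + l + 2 - m)`. Since `σ - m - 2 l ≥ (m - 4 l - 4) / 3 ≥ 0`:
`(m - 4 l - 4) ^ 2 ≤ 9 m (l ^ 2 + l + 2 - m)`, so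
`10 m ^ 2 ≤ 9 m (l ^ 2 + l + 2) + 8 (l + 1) m`, so `10 m ≤ 9 l ^ 2 + 17 l + 26`.

`exists_inter` PROOF. If `F = ∅` take `F' = ∅`. Otherwise take `A ∈ F` and `F'` the members disjoint
from `A`: two distinct members of `F'` meet (otherwise they and `A` are pairwise disjoint, a sunflower:
all pairwise intersections are empty; `A ∉ F'` because `l > 0`). The other members are `A` and the ones
counted in `card_nbr_le`.
-/

set_option autoImplicit false

namespace Pool.Agent.Work.MP_4b9821_co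

variable {α : Type*} [DecidableEq α]

private theorem key {l : ℕ} {F : Finset (Finset α)} (h : Adm l 2 F) (hI : Inter F) (hl : 0 < l)
    (hF : F.Nonempty) (hm : 4 * l + 4 ≤ F.card) :
    (F.card : ℝ) ≤ l ^ 2 + l + 2 ∧ 10 * (F.card : ℝ) ≤ 9 * l ^ 2 + 17 * l + 26 := by
  obtain ⟨σ, h1, h2⟩ := main_ineq h hI hl hF
  have hm' : 4 * (l : ℝ) + 4 ≤ F.card := by exact_mod_cast hm
  have hl' : (0 : ℝ) < l := by exact_mod_cast hl
  set m : ℝ := (F.card : ℝ)
  have hm0 : 0 < m := by linarith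
  have h3 := h2 (by linarith)
  have h4 : (σ - m - 2 * l) ^ 2 ≤ m * (l ^ 2 + l + 2 - m) := by nlinarith
  have h5 : 0 ≤ l ^ 2 + l + 2 - m := by
    by_contra hneg
    rw [not_le] at hneg
    have := mul_neg_of_pos_of_neg hm0 hneg
    linarith [sq_nonneg (σ - m - 2 * l)]
  refine ⟨by linarith, ?_⟩
  have h6 : (m - 4 * l - 4) / 3 ≤ σ - m - 2 * l := by linarith
  have h7 : ((m - 4 * l - 4) / 3) ^ 2 ≤ (σ - m - 2 * l) ^ 2 :=
    pow_le_pow_left₀ (by linarith) h6 2
  have h8 : m * (10 * m) ≤ m * (9 * l ^ 2 + 17 * l + 26) := by nlinarith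
  exact le_of_mul_le_mul_left h8 hm0

theorem inter_bound {l : ℕ} {F : Finset (Finset α)} (h : Adm l 2 F) (hI : Inter F) (hl : 3 ≤ l) :
    10 * F.card ≤ 9 * l ^ 2 + 17 * l + 26 := by
  rcases F.eq_empty_or_nonempty with rfl | hF
  · simp
  · rcases le_or_gt (4 * l + 4) F.card with hm | hm
    · exact_mod_cast (key h hI (by omega) hF hm).2
    · nlinarith

theorem inter_bound_any {l : ℕ} {F : Finset (Finset α)} (h : Adm l 2 F) (hI : Inter F) :
    F.card ≤ l ^ 2 + 5 * l + 7 := by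
  rcases F.eq_empty_or_nonempty with rfl | hF
  · simp
  · rcases Nat.eq_zero_or_pos l with rfl | hl
    · have : F ⊆ {∅} := fun A hA => by
        rw [Finset.mem_singleton]
        exact Finset.card_eq_zero.1 (h.1 A hA)
      have := Finset.card_le_card this
      rw [Finset.card_singleton] at this
      omega
    · rcases le_or_gt (4 * l + 4) F.card with hm | hm
      · have : F.card ≤ l ^ 2 + l + 2 := by exact_mod_cast (key h hI hl hF hm).1
        omega
      · have : 0 ≤ l ^ 2 := Nat.zero_le _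
        nlinarith

theorem exists_inter {l : ℕ} {F : Finset (Finset α)} (h : Adm l 2 F) (hl : 0 < l) :
    ∃ F' ⊆ F, Inter F' ∧ 2 * F.card + l ≤ 2 * F'.card + 3 * l ^ 2 + 2 := by
  rcases F.eq_empty_or_nonempty with rfl | ⟨A, hA⟩
  · refine ⟨∅, Finset.Subset.refl _, fun A hA => absurd hA (Finset.notMem_empty A), ?_⟩
    rw [Finset.card_empty]
    nlinarith
  · refine ⟨F.filter (fun B => ¬ (A ∩ B).Nonempty), Finset.filter_subset _ _, ?_, ?_⟩
    · intro B hB C hC hBC
      rw [Finset.mem_filter, Finset.not_nonempty_iff_eq_empty] at hB hC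
      by_contra hne
      rw [Finset.not_nonempty_iff_eq_empty] at hne
      have hAne : A.Nonempty := by
        rw [← Finset.card_pos, h.1 A hA]
        exact hl
      have hAB : A ≠ B := by
        rintro rfl
        rw [Finset.inter_self] at hB
        exact hAne.ne_empty hB.2
      have hAC : A ≠ C := by
        rintro rfl
        rw [Finset.inter_self] at hC
        exact hAne.ne_empty hC.2
      exact h.2.2 A hA B hB.1 C hC.1 ⟨hAB, hAC, hBC, hB.2.trans hC.2.symm, hC.2.trans hne.symm⟩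
    · have h1 := card_nbr_le h hA
      have h2 : F.card ≤ (F.filter (fun B => ¬ (A ∩ B).Nonempty)).card +
          ((F.filter (fun B => B ≠ A ∧ (A ∩ B).Nonempty)).card + 1) := by
        have hsub : F ⊆ F.filter (fun B => ¬ (A ∩ B).Nonempty) ∪
            insert A (F.filter (fun B => B ≠ A ∧ (A ∩ B).Nonempty)) := by
          intro B hB
          rw [Finset.mem_union, Finset.mem_insert, Finset.mem_filter, Finset.mem_filter]
          by_cases h1 : (A ∩ B).Nonempty
          · by_cases h2 : B = A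
            · exact Or.inr (Or.inl h2)
            · exact Or.inr (Or.inr ⟨hB, h2, h1⟩)
          · exact Or.inl ⟨hB, h1⟩
        refine (Finset.card_le_card hsub).trans ((Finset.card_union_le _ _).trans ?_)
        exact Nat.add_le_add_left (Finset.card_insert_le _ _) _
      omega

end Pool.Agent.Work.MP_4b9821_co
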