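import Pool.Agent.Work.MP_4b9821_co.Defs

/-!
U/Pairs (size M): double counting for pairs of distinct elements of the ground set.

`sum_codeg`: count triples `(x, y, A)` with `x ≠ y` in `A`: `m * l * (l - 1)`.
`codeg_le`: `codeg x y ≤ 2` for `x ≠ y`: three members that contain `x, y` would be a sunflower with core
`{x, y}` (all pairwise intersections have at most two elements, so are equal to `{x, y}`).
`card_codeg_two`: the number of ordered pairs `x ≠ y` with `codeg x y = 2` is the number `two F` of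
ordered pairs `A ≠ B` with `|A ∩ B| = 2`: both are twice the number of (unordered pair of members,
unordered pair of elements) with `A ∩ B = {x, y}`; or: count quadruples `(x, y, A, B)` with `x ≠ y`,
`A ≠ B`, `x, y ∈ A ∩ B` in two ways: for every ordered pair `(x, y)` with `codeg = 2` there are 2 ordered
pairs `(A, B)`, and for every ordered pair `(A, B)` with `|A ∩ B| = 2` there are 2 ordered pairs `(x, y)`.
`sum_codeg_sq`: `codeg ^ 2 = codeg + 2 * [codeg = 2]` for `codeg ≤ 2`, and sum.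
`sum_codeg_deg`: `∑_{x, y} codeg x y * deg x * deg y = ∑_A (∑_{x ∈ A} deg x) ^ 2` (all ordered pairs,
`x = y` allowed, `codeg x x = deg x`).
-/

set_option autoImplicit false

namespace Pool.Agent.Work.MP_4b9821_co

variable {α : Type*} [DecidableEq α]

private theorem inter_eq {l : ℕ} {F : Finset (Finset α)} (h : Adm l 2 F) {x y : α} (hxy : x ≠ y)
    {A B : Finset α} (hA : A ∈ F) (hB : B ∈ F) (hAB : A ≠ B) (hx : x ∈ A ∩ B) (hy : y ∈ A ∩ B) :
    A ∩ B = {x, y} := by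
  symm
  apply Finset.eq_of_subset_of_card_le
  · intro z hz
    rw [Finset.mem_insert, Finset.mem_singleton] at hz
    rcases hz with rfl | rfl
    · exact hx
    · exact hy
  · rw [Finset.card_pair hxy]
    exact h.2.1 A hA B hB hAB

theorem codeg_le {l : ℕ} {F : Finset (Finset α)} (h : Adm l 2 F) {x y : α} (hxy : x ≠ y) :
    codeg F x y ≤ 2 := by
  by_contra hc
  rw [not_le] at hc
  obtain ⟨A, B, C, hA, hB, hC, hAB, hAC, hBC⟩ := Finset.two_lt_card_iff.1 hc
  rw [Finset.mem_filter] at hA hB hC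
  have e1 := inter_eq h hxy hA.1 hB.1 hAB (Finset.mem_inter.2 ⟨hA.2.1, hB.2.1⟩)
    (Finset.mem_inter.2 ⟨hA.2.2, hB.2.2⟩)
  have e2 := inter_eq h hxy hA.1 hC.1 hAC (Finset.mem_inter.2 ⟨hA.2.1, hC.2.1⟩)
    (Finset.mem_inter.2 ⟨hA.2.2, hC.2.2⟩)
  have e3 := inter_eq h hxy hB.1 hC.1 hBC (Finset.mem_inter.2 ⟨hB.2.1, hC.2.1⟩)
    (Finset.mem_inter.2 ⟨hB.2.2, hC.2.2⟩)
  exact h.2.2 A hA.1 B hB.1 C hC.1 ⟨hAB, hAC, hBC, e1.trans e2.symm, e2.trans e3.symm⟩

private theorem mem_gr {F : Finset (Finset α)} {A : Finset α} (hA : A ∈ F) {x : α} (hx : x ∈ A) :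
    x ∈ gr F := Finset.mem_biUnion.2 ⟨A, hA, hx⟩

/-- Double counting of codegrees. -/
private theorem sum_codeg {l : ℕ} {F : Finset (Finset α)} (h : Adm l 2 F) :
    ∑ p ∈ (gr F).offDiag, codeg F p.1 p.2 + F.card * l = F.card * l ^ 2 := by
  have e : ∑ p ∈ (gr F).offDiag, codeg F p.1 p.2 = ∑ A ∈ F, A.offDiag.card := by
    have : ∀ p ∈ (gr F).offDiag, codeg F p.1 p.2 =
        ∑ A ∈ F, if p ∈ A.offDiag then 1 else 0 := by
      intro p hp
      rw [Finset.mem_offDiag] at hp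
      rw [codeg, Finset.card_filter]
      refine Finset.sum_congr rfl fun A _ => ?_
      refine if_congr ?_ rfl rfl
      rw [Finset.mem_offDiag]
      exact ⟨fun h => ⟨h.1, h.2, hp.2.2⟩, fun h => ⟨h.1, h.2.1⟩⟩
    rw [Finset.sum_congr rfl this, Finset.sum_comm]
    refine Finset.sum_congr rfl fun A hA => ?_
    rw [← Finset.card_filter]
    congr 1
    ext p
    rw [Finset.mem_filter]
    refine ⟨fun h => h.2, fun h => ⟨?_, h⟩⟩
    rw [Finset.mem_offDiag] at h ⊢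
    exact ⟨mem_gr hA h.1, mem_gr hA h.2.1, h.2.2⟩
  rw [e, Finset.sum_congr rfl (fun A hA => by rw [Finset.offDiag_card, h.1 A hA] :
    ∀ A ∈ F, A.offDiag.card = l * l - l), Finset.sum_const, smul_eq_mul, ← mul_add]
  congr 1
  rw [Nat.sub_add_cancel (Nat.le_mul_self l)]
  ring

private theorem codeg_two {l : ℕ} {F : Finset (Finset α)} (h : Adm l 2 F) :
    2 * ((gr F).offDiag.filter (fun p => codeg F p.1 p.2 = 2)).card = 2 * two F := by
  have h1 : ∀ p ∈ (gr F).offDiag.filter (fun p => codeg F p.1 p.2 = 2),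
      (F.offDiag.filter (fun q => p.1 ∈ q.1 ∩ q.2 ∧ p.2 ∈ q.1 ∩ q.2)).card = 2 := by
    intro p hp
    rw [Finset.mem_filter] at hp
    have e : F.offDiag.filter (fun q => p.1 ∈ q.1 ∩ q.2 ∧ p.2 ∈ q.1 ∩ q.2) =
        (F.filter (fun A => p.1 ∈ A ∧ p.2 ∈ A)).offDiag := by
      ext q
      simp only [Finset.mem_filter, Finset.mem_offDiag, Finset.mem_inter]
      tauto
    rw [e, Finset.offDiag_card]
    have := hp.2
    rw [codeg] at this
    rw [this]
  have h2 : ∀ q ∈ (F ×ˢ F).filter (fun p => p.1 ≠ p.2 ∧ (p.1 ∩ p.2).card = 2),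
      (((gr F).offDiag.filter (fun p => codeg F p.1 p.2 = 2)).filter
        (fun p => p.1 ∈ q.1 ∩ q.2 ∧ p.2 ∈ q.1 ∩ q.2)).card = 2 := by
    intro q hq
    rw [Finset.mem_filter, Finset.mem_product] at hq
    have e : ((gr F).offDiag.filter (fun p => codeg F p.1 p.2 = 2)).filter
        (fun p => p.1 ∈ q.1 ∩ q.2 ∧ p.2 ∈ q.1 ∩ q.2) = (q.1 ∩ q.2).offDiag := by
      ext p
      rw [Finset.mem_filter, Finset.mem_filter, Finset.mem_offDiag, Finset.mem_offDiag]
      constructor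
      · rintro ⟨⟨h1, _⟩, h3⟩
        exact ⟨h3.1, h3.2, h1.2.2⟩
      · rintro ⟨h1, h2, h3⟩
        have hm1 := Finset.mem_inter.1 h1
        have hm2 := Finset.mem_inter.1 h2
        refine ⟨⟨⟨mem_gr hq.1.1 hm1.1, mem_gr hq.1.1 hm2.1, h3⟩, ?_⟩, h1, h2⟩
        refine le_antisymm (codeg_le h h3) ?_
        have hsub : ({q.1, q.2} : Finset (Finset α)) ⊆ F.filter (fun A => p.1 ∈ A ∧ p.2 ∈ A) := by
          intro A hA
          rw [Finset.mem_insert, Finset.mem_singleton] at hA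
          rw [Finset.mem_filter]
          rcases hA with rfl | rfl
          · exact ⟨hq.1.1, hm1.1, hm2.1⟩
          · exact ⟨hq.1.2, hm1.2, hm2.2⟩
        have := Finset.card_le_card hsub
        rwa [Finset.card_pair hq.2.1] at this
    rw [e, Finset.offDiag_card, hq.2.2]
  have h3 := Finset.sum_card_bipartiteAbove_eq_sum_card_bipartiteBelow
    (s := (gr F).offDiag.filter (fun p => codeg F p.1 p.2 = 2))
    (t := (F ×ˢ F).filter (fun p => p.1 ≠ p.2 ∧ (p.1 ∩ p.2).card = 2))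
    (fun p q => p.1 ∈ q.1 ∩ q.2 ∧ p.2 ∈ q.1 ∩ q.2)
  have e1 : ∀ p ∈ (gr F).offDiag.filter (fun p => codeg F p.1 p.2 = 2),
      (Finset.bipartiteAbove (fun (p : α × α) (q : Finset α × Finset α) =>
        p.1 ∈ q.1 ∩ q.2 ∧ p.2 ∈ q.1 ∩ q.2)
        ((F ×ˢ F).filter (fun p => p.1 ≠ p.2 ∧ (p.1 ∩ p.2).card = 2)) p).card = 2 := by
    intro p hp
    refine Eq.trans (congrArg Finset.card ?_) (h1 p hp)
    ext q
    rw [Finset.mem_bipartiteAbove, Finset.mem_filter, Finset.mem_filter, Finset.mem_product,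
      Finset.mem_offDiag]
    rw [Finset.mem_filter, Finset.mem_offDiag] at hp
    constructor
    · rintro ⟨⟨h1, h2, _⟩, h4⟩
      exact ⟨⟨h1.1, h1.2, h2⟩, h4⟩
    · rintro ⟨⟨h1, h2, h3⟩, h4⟩
      refine ⟨⟨⟨h1, h2⟩, h3, ?_⟩, h4⟩
      rw [inter_eq h hp.1.2.2 h1 h2 h3 h4.1 h4.2, Finset.card_pair hp.1.2.2]
  rw [Finset.sum_congr rfl e1, Finset.sum_const, smul_eq_mul] at h3
  have e2 : ∀ q ∈ (F ×ˢ F).filter (fun p => p.1 ≠ p.2 ∧ (p.1 ∩ p.2).card = 2),
      (Finset.bipartiteBelow (fun (p : α × α) (q : Finset α × Finset α) =>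
        p.1 ∈ q.1 ∩ q.2 ∧ p.2 ∈ q.1 ∩ q.2)
        ((gr F).offDiag.filter (fun p => codeg F p.1 p.2 = 2)) q).card = 2 := fun q hq => h2 q hq
  rw [Finset.sum_congr rfl e2, Finset.sum_const, smul_eq_mul] at h3
  rw [two]
  omega

theorem sum_codeg_sq {l : ℕ} {F : Finset (Finset α)} (h : Adm l 2 F) :
    ∑ p ∈ (gr F).offDiag, codeg F p.1 p.2 ^ 2 + F.card * l = F.card * l ^ 2 + 2 * two F := by
  rw [← codeg_two h, ← sum_codeg h, Finset.card_filter]
  have : ∑ p ∈ (gr F).offDiag, codeg F p.1 p.2 ^ 2 = ∑ p ∈ (gr F).offDiag, codeg F p.1 p.2 +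
      2 * ∑ p ∈ (gr F).offDiag, if codeg F p.1 p.2 = 2 then 1 else 0 := by
    rw [Finset.mul_sum, ← Finset.sum_add_distrib]
    refine Finset.sum_congr rfl fun p hp => ?_
    have := codeg_le h (Finset.mem_offDiag.1 hp).2.2
    interval_cases codeg F p.1 p.2 <;> simp
  rw [this]
  ring

theorem sum_codeg_deg {F : Finset (Finset α)} :
    ∑ p ∈ (gr F).offDiag, codeg F p.1 p.2 * deg F p.1 * deg F p.2 + ∑ x ∈ gr F, deg F x ^ 3 =
      ∑ A ∈ F, (∑ x ∈ A, deg F x) ^ 2 := by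
  have e1 : ∑ x ∈ gr F, deg F x ^ 3 =
      ∑ p ∈ (gr F).diag, codeg F p.1 p.2 * deg F p.1 * deg F p.2 := by
    rw [Finset.sum_diag]
    refine Finset.sum_congr rfl fun x _ => ?_
    have : codeg F x x = deg F x := by
      rw [codeg, deg]
      congr 1
      ext A
      simp
    rw [this]
    ring
  rw [e1, add_comm, ← Finset.sum_union (Finset.disjoint_diag_offDiag _), Finset.diag_union_offDiag]
  have e2 : ∀ p ∈ gr F ×ˢ gr F, codeg F p.1 p.2 * deg F p.1 * deg F p.2 =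
      ∑ A ∈ F, if p.1 ∈ A ∧ p.2 ∈ A then deg F p.1 * deg F p.2 else 0 := by
    intro p _
    rw [codeg, Finset.card_filter, mul_assoc, Finset.sum_mul]
    refine Finset.sum_congr rfl fun A _ => ?_
    rw [ite_mul, one_mul, zero_mul]
  rw [Finset.sum_congr rfl e2, Finset.sum_comm]
  refine Finset.sum_congr rfl fun A hA => ?_
  rw [← Finset.sum_filter, sq, Finset.sum_mul_sum, ← Finset.sum_product']
  refine Finset.sum_congr ?_ fun _ _ => rfl
  ext p
  rw [Finset.mem_filter, Finset.mem_product, Finset.mem_product]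
  exact ⟨fun h => h.2, fun h => ⟨⟨mem_gr hA h.1, mem_gr hA h.2⟩, h⟩⟩

end Pool.Agent.Work.MP_4b9821_co
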