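import Pool.Agent.Work.MP_4b9821_co.U.Deg
import Pool.Agent.Work.MP_4b9821_co.U.Pairs

/-!
U/Main (size S-M). `m = F.card`, `T = ∑ deg x ^ 2`, `σ = T / m`, `w = two F`.

PROOF. `sum_deg_sq`: `w = T + m - m l - m ^ 2 = m (σ - l - m + 1)`. `one_le`:
`2 m ^ 2 ≤ 2 m + 2 w + T`, divide by `m`: `2 m ≤ 2 + 2 (σ - l - m + 1) + σ`, i.e.
`4 (m - 1) + 2 l ≤ 3 σ`. This is the first inequality.

Second: Cauchy-Schwarz (`Finset.sum_mul_sq_le_sq_mul_sq`) over `(gr F).offDiag`: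
`(∑ codeg * (deg x * deg y)) ^ 2 ≤ (∑ codeg ^ 2) * (∑ deg x ^ 2 * deg y ^ 2) ≤ (∑ codeg ^ 2) * T ^ 2`.
By `sum_codeg_deg`, the left sum is `∑_A D_A ^ 2 - ∑ deg ^ 3` with `D_A = ∑_{x ∈ A} deg x`,
`∑_A D_A = T` (`sum_sum_deg`), `∑_A D_A ^ 2 ≥ T ^ 2 / m` (Cauchy-Schwarz), `∑ deg ^ 3 ≤ 2 l T` (`deg_le`).
So if `σ ≥ 2 l` it is at least `T ^ 2 / m - 2 l T = T (σ - 2 l) ≥ 0`, and
`(σ - 2 l) ^ 2 ≤ ∑ codeg ^ 2 = m l ^ 2 - m l + 2 w = m l (l - 1) + 2 m (σ - l - m + 1)`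
(divide by `T ^ 2 > 0`; `T > 0` since `m > 0` and `l > 0`).
-/

set_option autoImplicit false

namespace Pool.Agent.Work.MP_4b9821_co

variable {α : Type*} [DecidableEq α]

theorem main_ineq {l : ℕ} {F : Finset (Finset α)} (h : Adm l 2 F) (hI : Inter F) (hl : 0 < l)
    (hF : F.Nonempty) :
    ∃ σ : ℝ, 4 * ((F.card : ℝ) - 1) + 2 * l ≤ 3 * σ ∧
      (2 * l ≤ σ → (σ - 2 * l) ^ 2 ≤
        F.card * l * (l - 1) + 2 * F.card * (σ - l - F.card + 1)) := by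
  have hm : (0 : ℝ) < F.card := by exact_mod_cast hF.card_pos
  have hl' : (0 : ℝ) < l := by exact_mod_cast hl
  have h1 : (∑ x ∈ gr F, (deg F x : ℝ) ^ 2) + F.card = F.card * l + F.card ^ 2 + two F := by
    exact_mod_cast sum_deg_sq h hI
  have h2 : 2 * (F.card : ℝ) ^ 2 ≤ 2 * F.card + 2 * two F + ∑ x ∈ gr F, (deg F x : ℝ) ^ 2 := by
    exact_mod_cast one_le h hI
  have h3 : (∑ p ∈ (gr F).offDiag, (codeg F p.1 p.2 : ℝ) ^ 2) + F.card * l =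
      F.card * l ^ 2 + 2 * two F := by
    exact_mod_cast sum_codeg_sq h
  have h4 : (∑ p ∈ (gr F).offDiag, (codeg F p.1 p.2 : ℝ) * deg F p.1 * deg F p.2) +
      ∑ x ∈ gr F, (deg F x : ℝ) ^ 3 = ∑ A ∈ F, (∑ x ∈ A, (deg F x : ℝ)) ^ 2 := by
    exact_mod_cast sum_codeg_deg (F := F)
  have h5 : ∑ A ∈ F, ∑ x ∈ A, (deg F x : ℝ) = ∑ x ∈ gr F, (deg F x : ℝ) ^ 2 := by
    exact_mod_cast sum_sum_deg (F := F)
  have h6 : ∑ x ∈ gr F, (deg F x : ℝ) = F.card * l := by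
    exact_mod_cast sum_deg h
  set T : ℝ := ∑ x ∈ gr F, (deg F x : ℝ) ^ 2 with hT
  have hT0 : 0 < T := by
    have hle : (F.card : ℝ) * l ≤ T := by
      rw [← h6, hT]
      refine Finset.sum_le_sum fun x _ => ?_
      have : deg F x ≤ deg F x ^ 2 := Nat.le_self_pow two_ne_zero _
      exact_mod_cast this
    exact lt_of_lt_of_le (mul_pos hm hl') hle
  set m : ℝ := (F.card : ℝ) with hmdef
  set w : ℝ := (two F : ℝ) with hw
  obtain ⟨σ, hσ⟩ : ∃ σ : ℝ, T = m * σ := ⟨T / m, by field_simp⟩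
  have hw' : w = m * (σ - l - m + 1) := by
    have : w = T + m - m * l - m ^ 2 := by linarith
    rw [this, hσ]
    ring
  refine ⟨σ, ?_, fun hσl => ?_⟩
  · have : m * (4 * (m - 1) + 2 * l) ≤ m * (3 * σ) := by
      rw [hw', hσ] at h2
      nlinarith
    exact le_of_mul_le_mul_left this hm
  · have hcs : (∑ p ∈ (gr F).offDiag, (codeg F p.1 p.2 : ℝ) * (deg F p.1 * deg F p.2)) ^ 2 ≤
        (∑ p ∈ (gr F).offDiag, (codeg F p.1 p.2 : ℝ) ^ 2) *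
          ∑ p ∈ (gr F).offDiag, ((deg F p.1 : ℝ) * deg F p.2) ^ 2 :=
      Finset.sum_mul_sq_le_sq_mul_sq _ _ _
    have hoff : ∑ p ∈ (gr F).offDiag, ((deg F p.1 : ℝ) * deg F p.2) ^ 2 ≤ T ^ 2 := by
      have : ∑ p ∈ gr F ×ˢ gr F, ((deg F p.1 : ℝ) * deg F p.2) ^ 2 = T ^ 2 := by
        rw [sq T, hT, Finset.sum_mul_sum, ← Finset.sum_product']
        exact Finset.sum_congr rfl fun p _ => by ring
      rw [← this]
      exact Finset.sum_le_sum_of_subset_of_nonneg (fun p hp => by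
        rw [Finset.mem_offDiag] at hp
        exact Finset.mem_product.2 ⟨hp.1, hp.2.1⟩) (fun p _ _ => sq_nonneg _)
    have hcube : ∑ x ∈ gr F, (deg F x : ℝ) ^ 3 ≤ 2 * l * T := by
      rw [hT, Finset.mul_sum]
      refine Finset.sum_le_sum fun x _ => ?_
      have : (deg F x : ℝ) ≤ 2 * l := by exact_mod_cast deg_le h x
      have h0 : (0 : ℝ) ≤ (deg F x : ℝ) ^ 2 := sq_nonneg _
      calc (deg F x : ℝ) ^ 3 = deg F x * (deg F x : ℝ) ^ 2 := by ring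
        _ ≤ 2 * l * (deg F x : ℝ) ^ 2 := mul_le_mul_of_nonneg_right this h0
    have hsq : T ^ 2 ≤ m * ∑ A ∈ F, (∑ x ∈ A, (deg F x : ℝ)) ^ 2 := by
      rw [← h5, hmdef]
      exact sq_sum_le_card_mul_sum_sq
    have hlow : T * (σ - 2 * l) ≤
        ∑ p ∈ (gr F).offDiag, (codeg F p.1 p.2 : ℝ) * (deg F p.1 * deg F p.2) := by
      have e : ∑ p ∈ (gr F).offDiag, (codeg F p.1 p.2 : ℝ) * (deg F p.1 * deg F p.2) =
          ∑ p ∈ (gr F).offDiag, (codeg F p.1 p.2 : ℝ) * deg F p.1 * deg F p.2 :=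
        Finset.sum_congr rfl fun p _ => by ring
      rw [e]
      have h7 : T * σ ≤ ∑ A ∈ F, (∑ x ∈ A, (deg F x : ℝ)) ^ 2 := by
        have : m * (T * σ) ≤ m * ∑ A ∈ F, (∑ x ∈ A, (deg F x : ℝ)) ^ 2 := by
          refine le_trans (le_of_eq ?_) hsq
          rw [sq T]
          nth_rewrite 3 [hσ]
          ring
        exact le_of_mul_le_mul_left this hm
      linarith
    have h8 : (T * (σ - 2 * l)) ^ 2 ≤ (∑ p ∈ (gr F).offDiag, (codeg F p.1 p.2 : ℝ) ^ 2) * T ^ 2 := by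
      refine le_trans (pow_le_pow_left₀ (mul_nonneg hT0.le (by linarith)) hlow 2) (hcs.trans ?_)
      exact mul_le_mul_of_nonneg_left hoff (Finset.sum_nonneg fun _ _ => sq_nonneg _)
    have h9 : (σ - 2 * l) ^ 2 ≤ ∑ p ∈ (gr F).offDiag, (codeg F p.1 p.2 : ℝ) ^ 2 := by
      have hT2 : 0 < T ^ 2 := by positivity
      refine le_of_mul_le_mul_right ?_ hT2
      calc (σ - 2 * l) ^ 2 * T ^ 2 = (T * (σ - 2 * l)) ^ 2 := by ring
        _ ≤ _ := h8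
    have h10 : ∑ p ∈ (gr F).offDiag, (codeg F p.1 p.2 : ℝ) ^ 2 = m * l ^ 2 - m * l + 2 * w := by
      linarith
    rw [h10, hw'] at h9
    linarith

end Pool.Agent.Work.MP_4b9821_co
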